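import Pool.Agent.K9h60.CovNum.Order

/-!
# `f_r(k)` has the order `r²` for `r < k ≤ r (log r) ^ A`

`IntCov k H` : the `r`-partite `r`-graph `H` (a finite set of transversals `Fin r → Fin n`) is
`k`-intersectingly covered; `tau H` : its cover number (`Pool/Agent/TH482/Defs.lean`).

The known upper bound `O(r² log r / log k)` is `O(r²)` for `k ≥ r`; by the theorem it is attained, up
to the constant, for all `k` from `r + 1` to `r` times any fixed power of `log r`, so that its
factor `log r` is necessary, and `f_r(k)` is determined up to constants in this range. (The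
starting files have the lower bound `Ω(r² log log r / log r)` in this range.)

New idea: the covers need not be found by the random gadget alone. Half of the parts are kept as
spare parts. A cover from the gadget misses a `δ` fraction of the `k` edges on the average, and
`k δ ≤ r / 2` missed edges can be met one by one in the spare parts; so `δ` need not be smaller than
`1 / k`, it may be as large as `r / (3 k)`. In general this gives, with `l = 1 + log (k / r)`,
the lower bound `c r² min (1, log log (r / l) / l)` (`Pool.Agent.K9h60.CovNum.lower2`), which for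
`k ≥ r ^ (1 + ε)` agrees with the lower bound of the starting files up to constants.
-/

set_option autoImplicit false

namespace Pool.Agent.Results.MP_39270e_co.PolylogRange

open Pool.Agent.TH482

/-- There is an absolute constant `c > 0` such that, for every `A ≥ 1`,
`(c / A) r² ≤ f_r(k) ≤ 200 r²` for all sufficiently large `r` and all `k` with
`r < k ≤ r (log r) ^ A`. -/
theorem result : ∃ c : ℝ, 0 < c ∧ ∀ A : ℝ, 1 ≤ A → ∃ R : ℕ, ∀ r k : ℕ, R ≤ r → r < k →
    (k : ℝ) ≤ r * Real.log r ^ A →
      (∃ (n : ℕ) (H : Finset (Fin r → Fin n)), IntCov k H ∧ c / A * (r : ℝ) ^ 2 ≤ tau H) ∧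
      ∀ (n : ℕ) (H : Finset (Fin r → Fin n)), IntCov k H → (tau H : ℝ) ≤ 200 * (r : ℝ) ^ 2 :=
  ⟨1 / 655360, by norm_num, Pool.Agent.K9h60.CovNum.order⟩

end Pool.Agent.Results.MP_39270e_co.PolylogRange
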